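import Pool.Agent.Helper98.EX.Stmts

/-!
MP_157eb8_pr, module EPOCH: current through a trap.
-/

set_option autoImplicit false

namespace Pool.Agent.Helper98.EX

open Finset

/-- full below `A`, `X` on `[A,B]`, empty above -/
def epoch_xi (N A : ℕ) (X : Finset ℕ) : Cfg N := fun i => decide (i.val < A ∨ i.val ∈ X)

theorem epoch_occ {N A : ℕ} (X : Finset ℕ) {i : ℕ} (hi : i < N) :
    occ (epoch_xi N A X) i = decide (i < A ∨ i ∈ X) := by
  rw [occ_lt hi]
  rfl

/-- states -/
def epoch_Om (A B n : ℕ) : Finset (Finset ℕ) := (Icc A B).powersetCard n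

theorem epoch_mem_Om {A B n : ℕ} {X : Finset ℕ} : X ∈ epoch_Om A B n ↔ X ⊆ Icc A B ∧ X.card = n := by
  unfold epoch_Om
  rw [mem_powersetCard]

/-- weights of sites -/
noncomputable def epoch_w (r l : ℕ → ℝ) (A i : ℕ) : ℝ := (RR r l A i)⁻¹

/-- weights of states -/
noncomputable def epoch_W (r l : ℕ → ℝ) (A : ℕ) (X : Finset ℕ) : ℝ := ∏ i ∈ X, epoch_w r l A i

/-- exchange -/
theorem epoch_exch {A B n a b : ℕ} (ha : a ∈ Icc A B) (hb : b ∈ Icc A B) (hab : a ≠ b) (F : Finset ℕ → ℝ) :
    ∑ X ∈ (epoch_Om A B n).filter (fun X => b ∈ X ∧ a ∉ X), F X =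
      ∑ X ∈ (epoch_Om A B n).filter (fun X => a ∈ X ∧ b ∉ X), F (insert b (X.erase a)) := by
  symm
  refine Finset.sum_nbij' (fun X => insert b (X.erase a)) (fun X => insert a (X.erase b)) ?_ ?_ ?_ ?_ ?_
  · intro X hX
    rw [mem_filter, epoch_mem_Om] at hX ⊢
    obtain ⟨⟨h1, h2⟩, h3, h4⟩ := hX
    refine ⟨⟨?_, ?_⟩, mem_insert_self _ _, ?_⟩
    · intro c hc
      rcases mem_insert.1 hc with rfl | hc
      · exact hb
      · exact h1 (mem_of_mem_erase hc)
    · rw [card_insert_of_notMem (fun h => h4 (mem_of_mem_erase h)), card_erase_of_mem h3, h2]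
      have : 0 < X.card := card_pos.2 ⟨a, h3⟩
      omega
    · rw [mem_insert, mem_erase]
      rintro (h | h)
      · exact hab h
      · exact h.1 rfl
  · intro X hX
    rw [mem_filter, epoch_mem_Om] at hX ⊢
    obtain ⟨⟨h1, h2⟩, h3, h4⟩ := hX
    refine ⟨⟨?_, ?_⟩, mem_insert_self _ _, ?_⟩
    · intro c hc
      rcases mem_insert.1 hc with rfl | hc
      · exact ha
      · exact h1 (mem_of_mem_erase hc)
    · rw [card_insert_of_notMem (fun h => h4 (mem_of_mem_erase h)), card_erase_of_mem h3, h2]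
      have : 0 < X.card := card_pos.2 ⟨b, h3⟩
      omega
    · rw [mem_insert, mem_erase]
      rintro (h | h)
      · exact hab h.symm
      · exact h.1 rfl
  · intro X hX
    rw [mem_filter] at hX
    obtain ⟨_, h3, h4⟩ := hX
    show insert a ((insert b (X.erase a)).erase b) = X
    rw [erase_insert (fun h => h4 (mem_of_mem_erase h)), insert_erase h3]
  · intro X hX
    rw [mem_filter] at hX
    obtain ⟨_, h3, h4⟩ := hX
    show insert b ((insert a (X.erase b)).erase a) = X
    rw [erase_insert (fun h => h4 (mem_of_mem_erase h)), insert_erase h3]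
  · intro X _
    rfl

theorem epoch_W_exch (r l : ℕ → ℝ) (A : ℕ) {X : Finset ℕ} {a b : ℕ} (ha : a ∈ X) (hb : b ∉ X) :
    epoch_W r l A (insert b (X.erase a)) * epoch_w r l A a = epoch_W r l A X * epoch_w r l A b := by
  unfold epoch_W
  rw [prod_insert (fun h => hb (mem_of_mem_erase h)), ← mul_prod_erase X _ ha]
  ring

section
variable {N : ℕ} {r l : ℕ → ℝ} {A B : ℕ}

theorem epoch_RR_pos (hA : Adm N r l) (h1 : 1 ≤ A) (hBN : B + 1 < N) (hl : ∀ b, A < b → b ≤ B → 0 < l b)
    {y x : ℕ} (hy : A ≤ y) (hx : x ≤ B) : 0 < RR r l y x := by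
  unfold RR
  refine prod_pos fun b hb => ?_
  rw [mem_Ioc] at hb
  exact div_pos (hl b (by omega) (by omega)) (hA b (by omega) (by omega)).1

theorem epoch_RR_mul (r l : ℕ → ℝ) {a y x : ℕ} (h1 : a ≤ y) (h2 : y ≤ x) :
    RR r l a y * RR r l y x = RR r l a x := by
  unfold RR
  exact prod_Ioc_consecutive _ h1 h2

theorem epoch_RR_self (r l : ℕ → ℝ) (a : ℕ) : RR r l a a = 1 := by
  unfold RR
  rw [Ioc_self, prod_empty]

theorem epoch_w_pos (hA : Adm N r l) (h1 : 1 ≤ A) (hBN : B + 1 < N) (hl : ∀ b, A < b → b ≤ B → 0 < l b)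
    {i : ℕ} (hi : i ≤ B) : 0 < epoch_w r l A i :=
  inv_pos.2 (epoch_RR_pos hA h1 hBN hl le_rfl hi)

theorem epoch_W_pos (hA : Adm N r l) (h1 : 1 ≤ A) (hBN : B + 1 < N) (hl : ∀ b, A < b → b ≤ B → 0 < l b)
    {X : Finset ℕ} (hX : X ⊆ Icc A B) : 0 < epoch_W r l A X :=
  prod_pos fun i hi => epoch_w_pos hA h1 hBN hl (mem_Icc.1 (hX hi)).2

/-- bound for the exchanged sum -/
theorem epoch_bound (hA : Adm N r l) (h1 : 1 ≤ A) (hBN : B + 1 < N) (hl : ∀ b, A < b → b ≤ B → 0 < l b)
    {n a b : ℕ} (ha : a ∈ Icc A B) (hb : b ∈ Icc A B) (hab : a ≠ b) :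
    ∑ X ∈ (epoch_Om A B n).filter (fun X => b ∈ X ∧ a ∉ X), epoch_W r l A X ≤
      epoch_w r l A b / epoch_w r l A a * ∑ X ∈ epoch_Om A B n, epoch_W r l A X := by
  have hwa := epoch_w_pos hA h1 hBN hl (mem_Icc.1 ha).2
  have hwb := epoch_w_pos hA h1 hBN hl (mem_Icc.1 hb).2
  rw [epoch_exch ha hb hab, mul_sum]
  have e : ∀ X ∈ (epoch_Om A B n).filter (fun X => a ∈ X ∧ b ∉ X),
      epoch_W r l A (insert b (X.erase a)) = epoch_w r l A b / epoch_w r l A a * epoch_W r l A X := by
    intro X hX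
    rw [mem_filter] at hX
    have := epoch_W_exch r l A hX.2.1 hX.2.2
    rw [div_mul_eq_mul_div, eq_div_iff hwa.ne', this]
    ring
  rw [sum_congr rfl e]
  refine sum_le_sum_of_subset_of_nonneg (filter_subset _ _) fun X hX _ => ?_
  exact mul_nonneg (div_nonneg hwb.le hwa.le) (epoch_W_pos hA h1 hBN hl (epoch_mem_Om.1 hX).1).le

/-- the last site -/
theorem epoch_right (hA : Adm N r l) (h1 : 1 ≤ A) (hAB : A ≤ B) (hBN : B + 1 < N)
    (hl : ∀ b, A < b → b ≤ B → 0 < l b) {G : Finset ℕ} (hG : G ⊆ Icc A B) :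
    ∑ X ∈ (epoch_Om A B G.card).filter (fun X => B ∈ X), epoch_W r l A X ≤
      (∑ y ∈ G, 1 / RR r l y B) * ∑ X ∈ epoch_Om A B G.card, epoch_W r l A X := by
  have hBI : B ∈ Icc A B := right_mem_Icc.2 hAB
  have hW : ∀ X ∈ epoch_Om A B G.card, 0 ≤ epoch_W r l A X := fun X hX =>
    (epoch_W_pos hA h1 hBN hl (epoch_mem_Om.1 hX).1).le
  have hZ : 0 ≤ ∑ X ∈ epoch_Om A B G.card, epoch_W r l A X := sum_nonneg hW
  have hR : ∀ y ∈ G, 0 ≤ 1 / RR r l y B := fun y hy =>
    (one_div_pos.2 (epoch_RR_pos hA h1 hBN hl (mem_Icc.1 (hG hy)).1 le_rfl)).le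
  by_cases hBG : B ∈ G
  · have s1 : (1 : ℝ) ≤ ∑ y ∈ G, 1 / RR r l y B := by
      have := single_le_sum hR hBG
      rwa [epoch_RR_self, div_one] at this
    calc ∑ X ∈ (epoch_Om A B G.card).filter (fun X => B ∈ X), epoch_W r l A X
        ≤ ∑ X ∈ epoch_Om A B G.card, epoch_W r l A X :=
          sum_le_sum_of_subset_of_nonneg (filter_subset _ _) fun X hX _ => hW X hX
      _ = 1 * ∑ X ∈ epoch_Om A B G.card, epoch_W r l A X := (one_mul _).symm
      _ ≤ _ := mul_le_mul_of_nonneg_right s1 hZ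
  · have s1 : ∀ X ∈ (epoch_Om A B G.card).filter (fun X => B ∈ X), epoch_W r l A X ≤
        ∑ y ∈ G, (if y ∉ X then epoch_W r l A X else 0) := by
      intro X hX
      rw [mem_filter, epoch_mem_Om] at hX
      obtain ⟨⟨k1, k2⟩, k3⟩ := hX
      have hex : ∃ y ∈ G, y ∉ X := by
        by_contra hcon
        push Not at hcon
        have := eq_of_subset_of_card_le (fun y hy => hcon y hy : G ⊆ X) k2.le
        rw [this] at hBG
        exact hBG k3
      obtain ⟨y, hy, hyX⟩ := hex
      have hWX := (epoch_W_pos hA h1 hBN hl k1).le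
      have := single_le_sum (f := fun y => if y ∉ X then epoch_W r l A X else 0)
        (fun z _ => by
          show (0 : ℝ) ≤ if z ∉ X then epoch_W r l A X else 0
          by_cases hz : z ∈ X
          · rw [if_neg (fun h => h hz)]
          · rw [if_pos hz]
            exact hWX) hy
      simp only [if_pos hyX] at this
      exact this
    refine (sum_le_sum s1).trans ?_
    rw [sum_comm, sum_mul]
    refine sum_le_sum fun y hy => ?_
    have hyI := hG hy
    have hyB : y ≠ B := fun h => hBG (h ▸ hy)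
    rw [← sum_filter, filter_filter]
    refine (epoch_bound hA h1 hBN hl hyI hBI hyB).trans (le_of_eq ?_)
    congr 1
    unfold epoch_w
    have p1 := epoch_RR_pos hA h1 hBN hl (y := A) (x := y) le_rfl (mem_Icc.1 hyI).2
    have p2 := epoch_RR_pos hA h1 hBN hl (y := y) (x := B) (mem_Icc.1 hyI).1 le_rfl
    rw [← epoch_RR_mul r l (mem_Icc.1 hyI).1 (mem_Icc.1 hyI).2]
    field_simp

/-- the first site -/
theorem epoch_left (hA : Adm N r l) (h1 : 1 ≤ A) (hAB : A ≤ B) (hBN : B + 1 < N)
    (hl : ∀ b, A < b → b ≤ B → 0 < l b) {G : Finset ℕ} (hG : G ⊆ Icc A B) :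
    ∑ X ∈ (epoch_Om A B G.card).filter (fun X => A ∉ X), epoch_W r l A X ≤
      (∑ x ∈ Icc A B \ G, 1 / RR r l A x) * ∑ X ∈ epoch_Om A B G.card, epoch_W r l A X := by
  have hAI : A ∈ Icc A B := left_mem_Icc.2 hAB
  have hW : ∀ X ∈ epoch_Om A B G.card, 0 ≤ epoch_W r l A X := fun X hX =>
    (epoch_W_pos hA h1 hBN hl (epoch_mem_Om.1 hX).1).le
  have hZ : 0 ≤ ∑ X ∈ epoch_Om A B G.card, epoch_W r l A X := sum_nonneg hW
  have hR : ∀ x ∈ Icc A B \ G, 0 ≤ 1 / RR r l A x := fun x hx =>
    (one_div_pos.2 (epoch_RR_pos hA h1 hBN hl le_rfl (mem_Icc.1 (mem_sdiff.1 hx).1).2)).le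
  by_cases hAG : A ∈ G
  swap
  · have s1 : (1 : ℝ) ≤ ∑ x ∈ Icc A B \ G, 1 / RR r l A x := by
      have := single_le_sum hR (mem_sdiff.2 ⟨hAI, hAG⟩)
      rwa [epoch_RR_self, div_one] at this
    calc ∑ X ∈ (epoch_Om A B G.card).filter (fun X => A ∉ X), epoch_W r l A X
        ≤ ∑ X ∈ epoch_Om A B G.card, epoch_W r l A X :=
          sum_le_sum_of_subset_of_nonneg (filter_subset _ _) fun X hX _ => hW X hX
      _ = 1 * ∑ X ∈ epoch_Om A B G.card, epoch_W r l A X := (one_mul _).symm
      _ ≤ _ := mul_le_mul_of_nonneg_right s1 hZ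
  · have s1 : ∀ X ∈ (epoch_Om A B G.card).filter (fun X => A ∉ X), epoch_W r l A X ≤
        ∑ x ∈ Icc A B \ G, (if x ∈ X then epoch_W r l A X else 0) := by
      intro X hX
      rw [mem_filter, epoch_mem_Om] at hX
      obtain ⟨⟨k1, k2⟩, k3⟩ := hX
      have hex : ∃ x ∈ X, x ∉ G := by
        by_contra hcon
        push Not at hcon
        have := eq_of_subset_of_card_le (fun y hy => hcon y hy : X ⊆ G) k2.ge
        rw [← this] at hAG
        exact k3 hAG
      obtain ⟨x, hx, hxG⟩ := hex
      have hWX := (epoch_W_pos hA h1 hBN hl k1).le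
      have := single_le_sum (f := fun x => if x ∈ X then epoch_W r l A X else 0)
        (fun z _ => by
          show (0 : ℝ) ≤ if z ∈ X then epoch_W r l A X else 0
          by_cases hz : z ∈ X
          · rw [if_pos hz]
            exact hWX
          · rw [if_neg hz]) (mem_sdiff.2 ⟨k1 hx, hxG⟩)
      simp only [if_pos hx] at this
      exact this
    refine (sum_le_sum s1).trans ?_
    rw [sum_comm, sum_mul]
    refine sum_le_sum fun x hx => ?_
    rw [mem_sdiff] at hx
    have hxA : A ≠ x := fun h => hx.2 (h ▸ hAG)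
    rw [← sum_filter, filter_filter]
    have e : (epoch_Om A B G.card).filter (fun X => A ∉ X ∧ x ∈ X) =
        (epoch_Om A B G.card).filter (fun X => x ∈ X ∧ A ∉ X) := by
      refine filter_congr fun X _ => ?_
      tauto
    rw [e]
    refine (epoch_bound hA h1 hBN hl hAI hx.1 hxA).trans (le_of_eq ?_)
    congr 1
    unfold epoch_w
    rw [epoch_RR_self, inv_one, div_one, one_div]

/-! ### marks -/

theorem epoch_Rm_in (h1 : 1 ≤ A) (hBN : B + 1 < N) {X : Finset ℕ} {x : ℕ} (hx1 : A < x) (hx2 : x ≤ B)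
    (ha : x - 1 ∈ X) (hb : x ∉ X) : Rm x (epoch_xi N A X) = epoch_xi N A (insert x (X.erase (x - 1))) := by
  have c : 1 ≤ x ∧ x < N ∧ occ (epoch_xi N A X) (x - 1) = true ∧ occ (epoch_xi N A X) x = false := by
    refine ⟨by omega, by omega, ?_, ?_⟩
    · rw [epoch_occ X (by omega)]
      exact decide_eq_true (Or.inr ha)
    · rw [epoch_occ X (by omega)]
      refine decide_eq_false ?_
      rintro (h | h)
      · omega
      · exact hb h
  unfold Rm
  rw [if_pos c]
  refine cfg_ext fun i hi => ?_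
  rw [occ_swp (by omega) (by omega), epoch_occ (insert x (X.erase (x - 1))) hi]
  by_cases h2 : i = x
  · subst h2
    rw [if_pos rfl, c.2.2.1]
    exact (decide_eq_true (Or.inr (mem_insert_self _ _))).symm
  · rw [if_neg h2]
    by_cases h3 : i + 1 = x
    · rw [if_pos h3, c.2.2.2]
      symm
      refine decide_eq_false ?_
      rintro (h | h)
      · omega
      · rw [mem_insert, mem_erase] at h
        rcases h with h | h
        · exact h2 h
        · exact h.1 (by omega)
    · rw [if_neg h3, epoch_occ X hi]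
      refine decide_eq_decide.2 ?_
      rw [mem_insert, mem_erase]
      constructor
      · rintro (h | h)
        · exact Or.inl h
        · exact Or.inr (Or.inr ⟨by omega, h⟩)
      · rintro (h | h | h)
        · exact Or.inl h
        · exact absurd h h2
        · exact Or.inr h.2

theorem epoch_Lm_in (h1 : 1 ≤ A) (hBN : B + 1 < N) {X : Finset ℕ} {x : ℕ} (hx1 : A < x) (hx2 : x ≤ B)
    (ha : x ∈ X) (hb : x - 1 ∉ X) : Lm x (epoch_xi N A X) = epoch_xi N A (insert (x - 1) (X.erase x)) := by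
  have c : 1 ≤ x ∧ x < N ∧ occ (epoch_xi N A X) (x - 1) = false ∧ occ (epoch_xi N A X) x = true := by
    refine ⟨by omega, by omega, ?_, ?_⟩
    · rw [epoch_occ X (by omega)]
      refine decide_eq_false ?_
      rintro (h | h)
      · omega
      · exact hb h
    · rw [epoch_occ X (by omega)]
      exact decide_eq_true (Or.inr ha)
  unfold Lm
  rw [if_pos c]
  refine cfg_ext fun i hi => ?_
  rw [occ_swp (by omega) (by omega), epoch_occ (insert (x - 1) (X.erase x)) hi]
  by_cases h2 : i = x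
  · subst h2
    rw [if_pos rfl, c.2.2.1]
    symm
    refine decide_eq_false ?_
    rintro (h | h)
    · omega
    · rw [mem_insert, mem_erase] at h
      rcases h with h | h
      · omega
      · exact h.1 rfl
  · rw [if_neg h2]
    by_cases h3 : i + 1 = x
    · rw [if_pos h3, c.2.2.2]
      symm
      refine decide_eq_true (Or.inr ?_)
      rw [mem_insert]
      exact Or.inl (by omega)
    · rw [if_neg h3, epoch_occ X hi]
      refine decide_eq_decide.2 ?_
      rw [mem_insert, mem_erase]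
      constructor
      · rintro (h | h)
        · exact Or.inl h
        · exact Or.inr (Or.inr ⟨h2, h⟩)
      · rintro (h | h | h)
        · exact Or.inl h
        · exact absurd h (by omega)
        · exact Or.inr h.2

theorem epoch_Rm_id {X : Finset ℕ} {x : ℕ}
    (h : ¬ (occ (epoch_xi N A X) (x - 1) = true ∧ occ (epoch_xi N A X) x = false)) :
    Rm x (epoch_xi N A X) = epoch_xi N A X := by
  unfold Rm
  rw [if_neg fun hc => h ⟨hc.2.2.1, hc.2.2.2⟩]

theorem epoch_Lm_id {X : Finset ℕ} {x : ℕ}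
    (h : ¬ (occ (epoch_xi N A X) (x - 1) = false ∧ occ (epoch_xi N A X) x = true)) :
    Lm x (epoch_xi N A X) = epoch_xi N A X := by
  unfold Lm
  rw [if_neg fun hc => h ⟨hc.2.2.1, hc.2.2.2⟩]

/-- the contribution of a bond -/
noncomputable def epoch_D (N A : ℕ) (r l : ℕ → ℝ) (g : Cfg N → ℝ) (x : ℕ) (X : Finset ℕ) : ℝ :=
  r x * (g (Rm x (epoch_xi N A X)) - g (epoch_xi N A X)) + l x * (g (Lm x (epoch_xi N A X)) - g (epoch_xi N A X))

/-- inner bonds -/
theorem epoch_inner (hA : Adm N r l) (h1 : 1 ≤ A) (hBN : B + 1 < N) (hl : ∀ b, A < b → b ≤ B → 0 < l b)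
    (g : Cfg N → ℝ) (n : ℕ) {x : ℕ} (hx1 : A < x) (hx2 : x ≤ B) :
    ∑ X ∈ epoch_Om A B n, epoch_W r l A X * epoch_D N A r l g x X = 0 := by
  have hocc : ∀ X : Finset ℕ, (occ (epoch_xi N A X) (x - 1) = true ↔ x - 1 ∈ X) ∧
      (occ (epoch_xi N A X) x = true ↔ x ∈ X) := by
    intro X
    rw [epoch_occ X (by omega), epoch_occ X (by omega), decide_eq_true_iff, decide_eq_true_iff]
    constructor
    · constructor
      · rintro (h | h)
        · omega
        · exact h
      · exact Or.inr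
    · constructor
      · rintro (h | h)
        · omega
        · exact h
      · exact Or.inr
  have e1 : ∀ X : Finset ℕ, epoch_W r l A X * epoch_D N A r l g x X =
      (if x - 1 ∈ X ∧ x ∉ X then epoch_W r l A X *
        (r x * (g (epoch_xi N A (insert x (X.erase (x - 1)))) - g (epoch_xi N A X))) else 0) +
      (if x ∈ X ∧ x - 1 ∉ X then epoch_W r l A X *
        (l x * (g (epoch_xi N A (insert (x - 1) (X.erase x))) - g (epoch_xi N A X))) else 0) := by
    intro X
    unfold epoch_D
    by_cases c1 : x - 1 ∈ X ∧ x ∉ X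
    · have c2 : ¬ (x ∈ X ∧ x - 1 ∉ X) := fun h => c1.2 h.1
      rw [if_pos c1, if_neg c2, epoch_Rm_in h1 hBN hx1 hx2 c1.1 c1.2, epoch_Lm_id (X := X) (fun h => c1.2
        ((hocc X).2.1 h.2))]
      ring
    · rw [if_neg c1]
      by_cases c2 : x ∈ X ∧ x - 1 ∉ X
      · rw [if_pos c2, epoch_Lm_in h1 hBN hx1 hx2 c2.1 c2.2, epoch_Rm_id (X := X) (fun h => c2.2
          ((hocc X).1.1 h.1))]
        ring
      · rw [if_neg c2, epoch_Rm_id (X := X) (fun h => c1 ⟨(hocc X).1.1 h.1, fun hh => by
          rw [(hocc X).2.2 hh] at h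
          exact absurd h.2 (by decide)⟩), epoch_Lm_id (X := X) (fun h => c2 ⟨(hocc X).2.1 h.2, fun hh => by
          rw [(hocc X).1.2 hh] at h
          exact absurd h.1 (by decide)⟩)]
        ring
  rw [sum_congr rfl fun X _ => e1 X, sum_add_distrib, ← sum_filter, ← sum_filter]
  have hxI : x ∈ Icc A B := mem_Icc.2 ⟨hx1.le, hx2⟩
  have hyI : x - 1 ∈ Icc A B := mem_Icc.2 ⟨by omega, by omega⟩
  rw [epoch_exch (n := n) hyI hxI (by omega) (fun X => epoch_W r l A X *
        (l x * (g (epoch_xi N A (insert (x - 1) (X.erase x))) - g (epoch_xi N A X)))), ← sum_add_distrib]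
  refine sum_eq_zero fun X hX => ?_
  rw [mem_filter] at hX
  obtain ⟨_, k1, k2⟩ := hX
  have e2 : insert (x - 1) ((insert x (X.erase (x - 1))).erase x) = X := by
    rw [erase_insert (fun h => k2 (mem_of_mem_erase h)), insert_erase k1]
  have hw := epoch_W_exch r l A k1 k2
  have hr := (hA x (by omega) (by omega)).1
  have hlx := hl x hx1 hx2
  have e3 : epoch_w r l A x * l x = epoch_w r l A (x - 1) * r x := by
    have p1 := epoch_RR_pos hA h1 hBN hl (y := A) (x := x - 1) le_rfl (by omega)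
    have e4 : RR r l A x = RR r l A (x - 1) * (l x / r x) := by
      rw [← epoch_RR_mul r l (a := A) (y := x - 1) (x := x) (by omega) (by omega)]
      congr 1
      unfold RR
      have : Ioc (x - 1) x = {x} := by
        ext b
        rw [mem_Ioc, mem_singleton]
        omega
      rw [this, prod_singleton]
    unfold epoch_w
    rw [e4]
    field_simp
  have hwp := epoch_w_pos hA h1 hBN hl (i := x - 1) (by omega)
  show epoch_W r l A X * (r x * (g (epoch_xi N A (insert x (X.erase (x - 1)))) - g (epoch_xi N A X))) +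
    epoch_W r l A (insert x (X.erase (x - 1))) * (l x * (g (epoch_xi N A
      (insert (x - 1) ((insert x (X.erase (x - 1))).erase x))) - g (epoch_xi N A (insert x (X.erase (x - 1)))))) = 0
  rw [e2]
  have e5 : epoch_W r l A (insert x (X.erase (x - 1))) * l x = epoch_W r l A X * r x := by
    have : (epoch_W r l A (insert x (X.erase (x - 1))) * l x) * epoch_w r l A (x - 1) =
        (epoch_W r l A X * r x) * epoch_w r l A (x - 1) := by
      linear_combination l x * hw + epoch_W r l A X * e3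
    exact mul_right_cancel₀ hwp.ne' this
  linear_combination (g (epoch_xi N A X) - g (epoch_xi N A (insert x (X.erase (x - 1))))) * e5

/-- outer bonds -/
theorem epoch_outer (g : Cfg N → ℝ) {X : Finset ℕ} (hX : X ⊆ Icc A B) (hAB : A ≤ B) {x : ℕ}
    (hx : x < A ∨ B + 1 < x) (hxN : x < N) : epoch_D N A r l g x X = 0 := by
  unfold epoch_D
  rcases hx with hx | hx
  · have o1 : occ (epoch_xi N A X) (x - 1) = true := by
      rw [epoch_occ X (by omega)]
      exact decide_eq_true (Or.inl (by omega))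
    have o2 : occ (epoch_xi N A X) x = true := by
      rw [epoch_occ X hxN]
      exact decide_eq_true (Or.inl hx)
    rw [epoch_Rm_id (X := X) (fun h => by rw [o2] at h; exact absurd h.2 (by decide)),
      epoch_Lm_id (X := X) (fun h => by rw [o1] at h; exact absurd h.1 (by decide))]
    ring
  · have n1 : x - 1 ∉ X := fun h => by
      have := mem_Icc.1 (hX h)
      omega
    have n2 : x ∉ X := fun h => by
      have := mem_Icc.1 (hX h)
      omega
    have o1 : occ (epoch_xi N A X) (x - 1) = false := by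
      rw [epoch_occ X (by omega)]
      refine decide_eq_false ?_
      rintro (h | h)
      · omega
      · exact n1 h
    have o2 : occ (epoch_xi N A X) x = false := by
      rw [epoch_occ X hxN]
      refine decide_eq_false ?_
      rintro (h | h)
      · omega
      · exact n2 h
    rw [epoch_Rm_id (X := X) (fun h => by rw [o1] at h; exact absurd h.1 (by decide)),
      epoch_Lm_id (X := X) (fun h => by rw [o2] at h; exact absurd h.2 (by decide))]
    ring

/-- heights change by at most one under a mark -/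
theorem epoch_hle_Rm (b : ℕ) (ξ : Cfg N) : hle 1 (Rm b ξ) ξ := fun y => ht_Rm_le ξ b y

/-- the height function -/
noncomputable def epoch_h (N B : ℕ) (ξ : Cfg N) : ℝ := (ht ξ (B + 1) : ℝ)

theorem epoch_lip (hA : Adm N r l) (B c j : ℕ) {η ξ : Cfg N} (h : hle c η ξ) :
    ev r l (fun _ => full N) j (epoch_h N B) η ≤ ev r l (fun _ => full N) j (epoch_h N B) ξ + c := by
  have h0 : ∀ (j : ℕ) (η ξ : Cfg N), hle c η ξ →
      ev r l (fun _ => full N) j (epoch_h N B) η ≤
        ev r l (fun _ => full N) j (fun ζ => epoch_h N B ζ + c) ξ := by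
    intro j
    induction j with
    | zero =>
      intro η ξ h
      show epoch_h N B η ≤ epoch_h N B ξ + c
      unfold epoch_h
      exact_mod_cast h (B + 1)
    | succ j ih =>
      intro η ξ h
      rw [ev_succ, ev_succ]
      refine stp_couple hA (ih _ _ h) (fun x _ _ => ih _ _ (hle_RmS h (full N) x))
        (fun x _ _ => ih _ _ (hle_LmS h (full N) x))
  refine (h0 j η ξ h).trans (le_of_eq ?_)
  rw [ev_add_fun (fun _ => full N) j (epoch_h N B) (fun _ => (c : ℝ)) ξ, ev_const]

/-- the left bond -/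
theorem epoch_bondA (hA : Adm N r l) (h1 : 1 ≤ A) (hAB : A ≤ B) (hBN : B + 1 < N) (X : Finset ℕ) {g : Cfg N → ℝ}
    (hg : ∀ (b : ℕ) (ξ : Cfg N), g (Rm b ξ) ≤ g ξ + 1) :
    epoch_D N A r l g A X ≤ if A ∉ X then r A else 0 := by
  have o1 : occ (epoch_xi N A X) (A - 1) = true := by
    rw [epoch_occ X (by omega)]
    exact decide_eq_true (Or.inl (by omega))
  unfold epoch_D
  rw [epoch_Lm_id (X := X) (fun h => by rw [o1] at h; exact absurd h.1 (by decide)), sub_self, mul_zero, add_zero]
  have hr := (hA A h1 (by omega)).1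
  by_cases hAX : A ∈ X
  · have o2 : occ (epoch_xi N A X) A = true := by
      rw [epoch_occ X (by omega)]
      exact decide_eq_true (Or.inr hAX)
    rw [epoch_Rm_id (X := X) (fun h => by rw [o2] at h; exact absurd h.2 (by decide)), sub_self, mul_zero,
      if_neg (fun h => h hAX)]
  · rw [if_pos hAX]
    have := hg A (epoch_xi N A X)
    nlinarith

/-- the right bond -/
theorem epoch_bondB (hA : Adm N r l) (h1 : 1 ≤ A) (hAB : A ≤ B) (hBN : B + 1 < N) {X : Finset ℕ}
    (hX : X ⊆ Icc A B) {g : Cfg N → ℝ} (hg : ∀ (b : ℕ) (ξ : Cfg N), g (Rm b ξ) ≤ g ξ + 1) :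
    epoch_D N A r l g (B + 1) X ≤ if B ∈ X then r (B + 1) else 0 := by
  have n2 : B + 1 ∉ X := fun h => by
    have := mem_Icc.1 (hX h)
    omega
  have o1 : occ (epoch_xi N A X) (B + 1) = false := by
    rw [epoch_occ X (by omega)]
    refine decide_eq_false ?_
    rintro (h | h)
    · omega
    · exact n2 h
  unfold epoch_D
  rw [epoch_Lm_id (X := X) (fun h => by rw [o1] at h; exact absurd h.2 (by decide)), sub_self, mul_zero, add_zero]
  have hr := (hA (B + 1) (by omega) (by omega)).1
  by_cases hBX : B ∈ X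
  · rw [if_pos hBX]
    have := hg (B + 1) (epoch_xi N A X)
    nlinarith
  · have o2 : occ (epoch_xi N A X) (B + 1 - 1) = false := by
      rw [epoch_occ X (by omega)]
      refine decide_eq_false ?_
      rintro (h | h)
      · omega
      · exact hBX (by simpa using h)
    rw [epoch_Rm_id (X := X) (fun h => by rw [o2] at h; exact absurd h.1 (by decide)), sub_self, mul_zero,
      if_neg hBX]

/-- one step -/
theorem epoch_step (hA : Adm N r l) (h1 : 1 ≤ A) (hAB : A ≤ B) (hBN : B + 1 < N)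
    (hl : ∀ b, A < b → b ≤ B → 0 < l b) (n : ℕ) {g : Cfg N → ℝ}
    (hg : ∀ (b : ℕ) (ξ : Cfg N), g (Rm b ξ) ≤ g ξ + 1) :
    ∑ X ∈ epoch_Om A B n, epoch_W r l A X * stp r l (full N) g (epoch_xi N A X) ≤
      ∑ X ∈ epoch_Om A B n, epoch_W r l A X * g (epoch_xi N A X) +
      (r A * (∑ X ∈ (epoch_Om A B n).filter (fun X => A ∉ X), epoch_W r l A X) +
        r (B + 1) * (∑ X ∈ (epoch_Om A B n).filter (fun X => B ∈ X), epoch_W r l A X)) / (2 * N) := by
  have e1 : ∀ X, epoch_W r l A X * stp r l (full N) g (epoch_xi N A X) =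
      epoch_W r l A X * g (epoch_xi N A X) +
        (∑ x ∈ full N, epoch_W r l A X * epoch_D N A r l g x X) / (2 * N) := by
    intro X
    rw [stp_open, ← mul_sum]
    show _ = epoch_W r l A X * g (epoch_xi N A X) + (epoch_W r l A X * ∑ x ∈ full N,
      (r x * (g (Rm x (epoch_xi N A X)) - g (epoch_xi N A X)) +
        l x * (g (Lm x (epoch_xi N A X)) - g (epoch_xi N A X)))) / (2 * N)
    ring
  rw [sum_congr rfl fun X _ => e1 X, sum_add_distrib, ← sum_div, sum_comm]
  have hW : ∀ X ∈ epoch_Om A B n, 0 ≤ epoch_W r l A X := fun X hX =>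
    (epoch_W_pos hA h1 hBN hl (epoch_mem_Om.1 hX).1).le
  have hmA : A ∈ full N := by
    unfold full
    exact mem_Ico.2 ⟨h1, by omega⟩
  have hmB : B + 1 ∈ (full N).erase A := by
    unfold full
    rw [mem_erase, mem_Ico]
    exact ⟨by omega, by omega, hBN⟩
  have key : ∑ x ∈ full N, ∑ X ∈ epoch_Om A B n, epoch_W r l A X * epoch_D N A r l g x X ≤
      r A * (∑ X ∈ (epoch_Om A B n).filter (fun X => A ∉ X), epoch_W r l A X) +
        r (B + 1) * (∑ X ∈ (epoch_Om A B n).filter (fun X => B ∈ X), epoch_W r l A X) := by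
    rw [← add_sum_erase _ _ hmA, ← add_sum_erase _ _ hmB]
    have z : ∑ x ∈ ((full N).erase A).erase (B + 1), ∑ X ∈ epoch_Om A B n,
        epoch_W r l A X * epoch_D N A r l g x X = 0 := by
      refine sum_eq_zero fun x hx => ?_
      rw [mem_erase, mem_erase] at hx
      obtain ⟨hx1, hx2, hx3⟩ := hx
      unfold full at hx3
      rw [mem_Ico] at hx3
      by_cases hin : A < x ∧ x ≤ B
      · exact epoch_inner hA h1 hBN hl g n hin.1 hin.2
      · refine sum_eq_zero fun X hX => ?_
        rw [epoch_outer g (epoch_mem_Om.1 hX).1 hAB (by omega) hx3.2, mul_zero]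
    rw [z, add_zero]
    refine add_le_add ?_ ?_
    · rw [mul_sum, sum_filter]
      refine sum_le_sum fun X hX => ?_
      have b1 := epoch_bondA hA h1 hAB hBN X hg
      refine (mul_le_mul_of_nonneg_left b1 (hW X hX)).trans (le_of_eq ?_)
      by_cases hAX : A ∈ X
      · rw [if_neg (fun h => h hAX), if_neg (fun h => h hAX), mul_zero]
      · rw [if_pos hAX, if_pos hAX, mul_comm]
    · rw [mul_sum, sum_filter]
      refine sum_le_sum fun X hX => ?_
      have b1 := epoch_bondB hA h1 hAB hBN (epoch_mem_Om.1 hX).1 hg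
      refine (mul_le_mul_of_nonneg_left b1 (hW X hX)).trans (le_of_eq ?_)
      by_cases hBX : B ∈ X
      · rw [if_pos hBX, if_pos hBX, mul_comm]
      · rw [if_neg hBX, if_neg hBX, mul_zero]
  have hN : (0 : ℝ) ≤ 2 * N := by positivity
  exact add_le_add le_rfl (div_le_div_of_nonneg_right key hN)

/-- many steps -/
theorem epoch_steps (hA : Adm N r l) (h1 : 1 ≤ A) (hAB : A ≤ B) (hBN : B + 1 < N)
    (hl : ∀ b, A < b → b ≤ B → 0 < l b) (n j : ℕ) :
    ∑ X ∈ epoch_Om A B n, epoch_W r l A X * ev r l (fun _ => full N) j (epoch_h N B) (epoch_xi N A X) ≤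
      j * ((r A * (∑ X ∈ (epoch_Om A B n).filter (fun X => A ∉ X), epoch_W r l A X) +
        r (B + 1) * (∑ X ∈ (epoch_Om A B n).filter (fun X => B ∈ X), epoch_W r l A X)) / (2 * N)) := by
  induction j with
  | zero =>
    rw [Nat.cast_zero, zero_mul]
    refine le_of_eq (sum_eq_zero fun X hX => ?_)
    rw [ev_zero]
    have : ht (epoch_xi N A X) (B + 1) = 0 := by
      unfold ht
      refine sum_eq_zero fun i hi => ?_
      rw [mem_Ico] at hi
      have o : occ (epoch_xi N A X) i = false := by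
        rw [epoch_occ X hi.2]
        refine decide_eq_false ?_
        rintro (h | h)
        · omega
        · have := mem_Icc.1 ((epoch_mem_Om.1 hX).1 h)
          omega
      rw [o]
      rfl
    unfold epoch_h
    rw [this]
    simp
  | succ j ih =>
    have := epoch_step hA h1 hAB hBN hl n (g := ev r l (fun _ => full N) j (epoch_h N B)) (fun b ξ => by
      have := epoch_lip hA B 1 j (epoch_hle_Rm b ξ)
      simpa using this)
    rw [ev_succ]
    push_cast
    linarith

end

/-- current through a trap -/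
theorem st_EPOCH : ST_EPOCH := by
  intro N r l A B j G η hA h1 hAB hBN hG hl
  have hN : (0 : ℝ) < 2 * N := by
    have : (0 : ℝ) < N := by exact_mod_cast (by omega : 0 < N)
    positivity
  have hW : ∀ X ∈ epoch_Om A B G.card, 0 < epoch_W r l A X := fun X hX =>
    epoch_W_pos hA h1 hBN hl (epoch_mem_Om.1 hX).1
  have hGm : G ∈ epoch_Om A B G.card := epoch_mem_Om.2 ⟨hG, rfl⟩
  have hZ : 0 < ∑ X ∈ epoch_Om A B G.card, epoch_W r l A X := sum_pos hW ⟨G, hGm⟩
  -- comparison with the states
  have hcmp : ∀ X ∈ epoch_Om A B G.card, ev r l (fun _ => full N) j (epoch_h N B) η ≤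
      ev r l (fun _ => full N) j (epoch_h N B) (epoch_xi N A X) + ((ht η (B + 1) : ℝ) + ((B : ℝ) + 1 - A)) := by
    intro X _
    have hh : hle (ht η (B + 1) + (B + 1 - A)) η (epoch_xi N A X) := by
      intro x
      by_cases hx : A ≤ x
      · have a1 := ht_anti η hx
        have a2 := ht_le_sub η (x := A) (y := B + 1) (by omega)
        omega
      · have a1 := ht_le_sub η (x := x) (y := A) (by omega)
        have a2 := ht_le_sub η (x := A) (y := B + 1) (by omega)
        have a3 : A - x ≤ ht (epoch_xi N A X) x := by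
          have a4 := ht_cnt (epoch_xi N A X) (A := x) (B := A) (by omega) (by omega)
          have a5 : cnt (epoch_xi N A X) x A = A - x := by
            unfold cnt
            have : ∀ i ∈ Ico x A, (if occ (epoch_xi N A X) i = true then 1 else 0) = 1 := by
              intro i hi
              rw [mem_Ico] at hi
              rw [epoch_occ X (by omega), if_pos (decide_eq_true (Or.inl hi.2))]
            rw [sum_congr rfl this]
            simp
          omega
        omega
    have := epoch_lip hA B _ j hh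
    have e : ((ht η (B + 1) + (B + 1 - A) : ℕ) : ℝ) = (ht η (B + 1) : ℝ) + ((B : ℝ) + 1 - A) := by
      rw [Nat.cast_add, Nat.cast_sub (by omega)]
      push_cast
      ring
    rw [e] at this
    exact this
  have s1 := epoch_steps hA h1 hAB hBN hl G.card j
  have s2 := epoch_left hA h1 hAB hBN hl hG
  have s3 := epoch_right hA h1 hAB hBN hl hG
  set Z := ∑ X ∈ epoch_Om A B G.card, epoch_W r l A X with hZd
  set E := ev r l (fun _ => full N) j (epoch_h N B) η with hE
  set c0 : ℝ := (ht η (B + 1) : ℝ) + ((B : ℝ) + 1 - A) with hc0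
  have rA := (hA A h1 (by omega)).1
  have rB := (hA (B + 1) (by omega) (by omega)).1
  have s4 : Z * E ≤ ∑ X ∈ epoch_Om A B G.card,
      epoch_W r l A X * ev r l (fun _ => full N) j (epoch_h N B) (epoch_xi N A X) + Z * c0 := by
    rw [hZd, sum_mul, sum_mul, ← sum_add_distrib]
    refine sum_le_sum fun X hX => ?_
    have := mul_le_mul_of_nonneg_left (hcmp X hX) (hW X hX).le
    rw [mul_add] at this
    exact this
  have s5 : (r A * (∑ X ∈ (epoch_Om A B G.card).filter (fun X => A ∉ X), epoch_W r l A X) +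
        r (B + 1) * (∑ X ∈ (epoch_Om A B G.card).filter (fun X => B ∈ X), epoch_W r l A X)) / (2 * N) ≤
      (r A * ((∑ x ∈ Icc A B \ G, 1 / RR r l A x) * Z) + r (B + 1) * ((∑ y ∈ G, 1 / RR r l y B) * Z)) / (2 * N) :=
    div_le_div_of_nonneg_right (add_le_add (mul_le_mul_of_nonneg_left s2 rA.le)
      (mul_le_mul_of_nonneg_left s3 rB.le)) hN.le
  have s6 := mul_le_mul_of_nonneg_left s5 (Nat.cast_nonneg j : (0 : ℝ) ≤ j)
  have e7 : ∑ y ∈ G, r (B + 1) / RR r l y B = r (B + 1) * ∑ y ∈ G, 1 / RR r l y B := by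
    rw [mul_sum]
    exact sum_congr rfl fun y _ => by rw [mul_one_div]
  have e8 : ∑ x ∈ Icc A B \ G, r A / RR r l A x = r A * ∑ x ∈ Icc A B \ G, 1 / RR r l A x := by
    rw [mul_sum]
    exact sum_congr rfl fun y _ => by rw [mul_one_div]
  rw [e7, e8]
  show E ≤ _
  set a := ∑ x ∈ Icc A B \ G, 1 / RR r l A x with ha
  set b := ∑ y ∈ G, 1 / RR r l y B with hb
  have s9 : Z * E ≤ Z * (c0 + j / (2 * N) * (r (B + 1) * b + r A * a)) := by
    have e9 : (j : ℝ) * ((r A * (a * Z) + r (B + 1) * (b * Z)) / (2 * N)) =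
        Z * (j / (2 * N) * (r (B + 1) * b + r A * a)) := by
      ring
    rw [mul_add, ← e9]
    linarith
  have := le_of_mul_le_mul_left s9 hZ
  rw [hc0] at this
  linarith

end Pool.Agent.Helper98.EX
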